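import Mathlib
import Pool.Agent.H96.WFPPDefs
import Pool.Agent.H96.WFPPProof

/-!
# Weighted first passage percolation: no convergence rate exponent larger than one

For exponential first passage percolation on `ℤ^d` with edge rates `f(m_e)`,
`f(z) = |z|^α f₀(z/|z|)`, `α < 1`, the rate `χ` never holds for `χ > 1`. As `2/(5(1-α)) > 1` for
`α > 3/5`, this refutes Q1.

The definitions are in `Pool/Agent/H96/WFPPDefs.lean`. Models exist (`WFPP.exists_model`).
-/

set_option autoImplicit false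

open MeasureTheory ProbabilityTheory Filter Topology Set
open scoped ENNReal Pointwise
open Pool.Agent.H96.WFPP

namespace Pool.Agent.Results.MP_d9d0cb_pr.NoRateAboveOne

/-- **No rate above one.** Let `d ≥ 1`, `α < 1`, `f₀` a positive Lipschitz function on the unit
sphere, and let `N` be any norm on `ℝ^d` (in particular the one whose unit ball is the limit shape
of standard exponential first passage percolation). For every `χ > 1` and every `s > 0` one has
`t₀^s (1 - ℙ(E(χ,t₀))) → ∞` as `t₀ → ∞`. In particular, if `α > 3/5` then the rate `χ` fails for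
some `χ ∈ (0, 2/(5(1-α)))`. -/
theorem result {d : ℕ} (hd : 1 ≤ d) {α : ℝ} (hα : α < 1) (f₀ : E d → ℝ)
    (hlip : ∃ K, LipschitzOnWith K f₀ (Metric.sphere 0 1))
    (hpos : ∀ z ∈ Metric.sphere (0 : E d) 1, 0 < f₀ z)
    (N : Seminorm ℝ (E d)) (hN : ∀ x, N x = 0 → x = 0)
    {Ω : Type*} [MeasurableSpace Ω] (P : Measure Ω) [IsProbabilityMeasure P]
    (X : (latticeGraph d).edgeSet → Ω → ℝ) (hX : IsModel P α f₀ X) :
    (∀ χ : ℝ, 1 < χ → ∀ s : ℝ, 0 < s →
      Tendsto (fun t₀ : ℝ => t₀ ^ s * (1 - P.real (goodEvent N α f₀ X χ t₀))) atTop atTop) ∧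
    (3 / 5 < α → ∃ χ ∈ Ioo (0 : ℝ) (2 / (5 * (1 - α))), ¬ RateHolds P N α f₀ X χ) := by
  have main : ∀ χ : ℝ, 1 < χ → ∀ s : ℝ, 0 < s →
      Tendsto (fun t₀ : ℝ => t₀ ^ s * (1 - P.real (goodEvent N α f₀ X χ t₀))) atTop atTop := by
    intro χ hχ s hs
    obtain ⟨δ, hδ, hev⟩ := failure_bound hd hα f₀ hlip hpos N hN P X hX hχ
    have h1 : Tendsto (fun t₀ : ℝ => t₀ ^ s * δ) atTop atTop :=
      (tendsto_rpow_atTop hs).atTop_mul_const hδ
    refine tendsto_atTop_mono' atTop ?_ h1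
    filter_upwards [hev, eventually_ge_atTop (0 : ℝ)] with t ht ht0
    have : 0 ≤ t ^ s := Real.rpow_nonneg ht0 _
    gcongr
  refine ⟨main, fun h35 => ?_⟩
  have h1α : 0 < 1 - α := by linarith
  have hlt : 1 < 2 / (5 * (1 - α)) := by
    rw [one_lt_div (by positivity)]; linarith
  obtain ⟨χ, hχ1, hχ2⟩ := exists_between hlt
  refine ⟨χ, ⟨by linarith, hχ2⟩, fun hrate => ?_⟩
  exact not_tendsto_nhds_of_tendsto_atTop (main χ hχ1 1 one_pos) 0 (hrate 1 one_pos)

end Pool.Agent.Results.MP_d9d0cb_pr.NoRateAboveOne
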